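import Pool.Agent.H22.Final

/-!
The size of the minimal finite global curve attractor of a rational Thurston map that is not
equivalent to a Lattès map is bounded by a function of the number of postcritical points and the
degree. The definitions are in `Pool.Agent.H22.Thurston`.

Proof: a non-Lattès postcritically finite rational map has no infinitesimal deformation (a
quadratic differential fixed by push-forward would force the orbifold `(2, 2, 2, 2)`), so after
normalizing three postcritical points the coefficients of such a map are algebraic numbers in every
limit, whence for given degree and number of postcritical points there are finitely many of them;
the attractor is transported by Thurston equivalence.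
-/

set_option autoImplicit false

namespace Pool.Agent.Results.MP_5e4b6b_an.CurveAttractorBound

open Pool.Agent.H22

/-- There is a function `B` of two natural numbers such that for every rational Thurston map `F`
not Thurston equivalent to a Lattès map, every minimal finite global attractor of the pullback
relation on curves has at most `B n d` elements, with `n` the number of postcritical points and `d`
the degree of `F`. -/
theorem result : ∃ B : ℕ → ℕ → ℕ, ∀ F : Sph → Sph, (Post F).Finite →
    (∃ d ≥ 2, ∃ G, IsRational d G ∧ ThurstonEquiv F G) →
    (∀ L, IsLattes L → ¬ ThurstonEquiv F L) →
    ∀ A : Set (CurveClass (Post F)), Minimal (IsAttractor F) A →
      A.ncard ≤ B (Post F).ncard (Deg F) :=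
  attractor_bound

end Pool.Agent.Results.MP_5e4b6b_an.CurveAttractorBound
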